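import Pool.Agent.H.MP_6562b9_an.F

namespace Pool.Agent.Results.MP_6562b9_an.Main

open Set MeasureTheory
open scoped NNReal ENNReal

/-- weak Lebesgue quasinorm: sup over s > 0 of s * |{t in I : |f t| > s}|^(1/p) -/
noncomputable def wk (p : ℝ) (I : Set ℝ) (f : ℝ → ℂ) : ℝ≥0∞ :=
  ⨆ (s : ℝ) (_ : 0 < s), ENNReal.ofReal s * volume {t | t ∈ I ∧ s < ‖f t‖} ^ (1 / p)

theorem result : ∀ n : ℕ, 2 ≤ n → ∃ C : ℝ, 0 < C ∧
    ∀ (α β : ℝ) (a : ℕ → ℝ → ℂ) (lam : ℝ → ℂ), α < β →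
      (∀ j ∈ Finset.Icc 1 n, ContDiffOn ℝ ((n - 1 : ℕ) : WithTop ℕ∞) (a j) (Icc α β) ∧
        ∃ K : ℝ≥0, LipschitzOnWith K (iteratedDerivWithin (n - 1) (a j) (Icc α β)) (Icc α β)) →
      ContinuousOn lam (Ioo α β) →
      (∀ t ∈ Ioo α β, lam t ^ n + ∑ j ∈ Finset.Icc 1 n, a j t * lam t ^ (n - j) = 0) →
      wk ((n : ℝ) / (n - 1)) (Ioo α β) (deriv lam) < ⊤ ∧
      ∀ A : ℝ≥0, 0 < A →
        (∀ j ∈ Finset.Icc 1 n,
          (∀ i ≤ n - 1, ∀ t ∈ Icc α β, ‖iteratedDerivWithin i (a j) (Icc α β) t‖ ≤ (A : ℝ) ^ j) ∧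
          LipschitzOnWith (A ^ j) (iteratedDerivWithin (n - 1) (a j) (Icc α β)) (Icc α β)) →
        wk ((n : ℝ) / (n - 1)) (Ioo α β) (deriv lam) ≤
          ENNReal.ofReal (C * max 1 ((β - α) ^ (1 / ((n : ℝ) / (n - 1)))) * A) := by
  intro n hn
  obtain ⟨k, rfl⟩ : ∃ k, n = k + 2 := ⟨n - 2, by omega⟩
  obtain ⟨C, hC, H⟩ := Pool.Agent.H.MP_6562b9_an.fin k
  obtain ⟨p, hp⟩ : ∃ p : ℝ, p = ((k : ℝ) + 2) / (k + 1) := ⟨_, rfl⟩
  have hp0 : 0 < p := by rw [hp]; positivity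
  have e1 : ((k + 2 : ℕ) : ℝ) / (((k + 2 : ℕ) : ℝ) - 1) = p := by
    rw [hp]; push_cast; congr 1; ring
  have e2 : k + 2 - 1 = k + 1 := rfl
  rw [e1, e2]
  rw [← hp] at H
  refine ⟨C ^ (1 / p) + 1, by positivity, fun α β a lam hαβ ha _ hl => ?_⟩
  have key : ∀ A : ℝ≥0, 0 < A →
      (∀ j ∈ Finset.Icc 1 (k + 2),
        (∀ i ≤ k + 1, ∀ t ∈ Icc α β, ‖iteratedDerivWithin i (a j) (Icc α β) t‖ ≤ (A : ℝ) ^ j) ∧
        LipschitzOnWith (A ^ j) (iteratedDerivWithin (k + 1) (a j) (Icc α β)) (Icc α β)) →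
      wk p (Ioo α β) (deriv lam) ≤
        ENNReal.ofReal ((C ^ (1 / p) + 1) * max 1 ((β - α) ^ (1 / p)) * A) := by
    intro A hA h
    have hA' : (0 : ℝ) < A := hA
    refine iSup₂_le fun s hs => ?_
    have h1 := H α β A a lam hαβ hA' (fun j hj => ⟨(ha j hj).1, (h j hj).1, fun s hs t ht => by
      have := (h j hj).2.dist_le_mul s hs t ht
      rwa [dist_eq_norm, Real.dist_eq, NNReal.coe_pow] at this⟩) hl s hs
    have hm : (0 : ℝ) ≤ max 1 (β - α) := by positivity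
    refine (mul_le_mul_right (ENNReal.rpow_le_rpow h1 (by positivity)) _).trans ?_
    rw [ENNReal.ofReal_rpow_of_nonneg (by positivity) (by positivity), ← ENNReal.ofReal_mul hs.le]
    refine ENNReal.ofReal_le_ofReal ?_
    rw [Real.mul_rpow (by positivity) (by positivity), Real.mul_rpow hC hm,
      ← Real.rpow_mul (by positivity), mul_one_div_cancel hp0.ne', Real.rpow_one]
    have h2 : (max 1 (β - α)) ^ (1 / p) ≤ max 1 ((β - α) ^ (1 / p)) := by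
      rcases le_total 1 (β - α) with h | h
      · rw [max_eq_right h]; exact le_max_right _ _
      · rw [max_eq_left h, Real.one_rpow]; exact le_max_left _ _
    calc s * (C ^ (1 / p) * max 1 (β - α) ^ (1 / p) * (A / s))
        = C ^ (1 / p) * max 1 (β - α) ^ (1 / p) * A := by field_simp
      _ ≤ _ := by gcongr; linarith
  refine ⟨?_, key⟩
  have hb : ∀ j, ∃ M : ℝ≥0, j ∈ Finset.Icc 1 (k + 2) →
      (∀ i ≤ k + 1, ∀ t ∈ Icc α β, ‖iteratedDerivWithin i (a j) (Icc α β) t‖ ≤ M) ∧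
      LipschitzOnWith M (iteratedDerivWithin (k + 1) (a j) (Icc α β)) (Icc α β) := by
    intro j
    by_cases hj : j ∈ Finset.Icc 1 (k + 2)
    · obtain ⟨h1, K, h2⟩ := ha j hj
      have h3 : ∀ i, ∃ M : ℝ≥0, i ≤ k + 1 →
          ∀ t ∈ Icc α β, ‖iteratedDerivWithin i (a j) (Icc α β) t‖ ≤ M := by
        intro i
        by_cases hi : i ≤ k + 1
        · obtain ⟨M, hM⟩ := isCompact_Icc.exists_bound_of_continuousOn
            (h1.continuousOn_iteratedDerivWithin (m := i) (by exact_mod_cast hi)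
              (uniqueDiffOn_Icc hαβ))
          exact ⟨M.toNNReal, fun _ t ht => (hM t ht).trans (Real.le_coe_toNNReal M)⟩
        · exact ⟨0, fun h => absurd h hi⟩
      choose M hM using h3
      refine ⟨K + ∑ i ∈ Finset.range (k + 2), M i, fun _ => ⟨fun i hi t ht => (hM i hi t ht).trans ?_,
        h2.weaken le_self_add⟩⟩
      exact_mod_cast (Finset.single_le_sum (f := M) (fun _ _ => zero_le)
        (Finset.mem_range.2 (by omega))).trans le_add_self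
    · exact ⟨0, fun h => absurd h hj⟩
  choose M hM using hb
  obtain ⟨A, hA⟩ : ∃ A : ℝ≥0, A = 1 + ∑ j ∈ Finset.Icc 1 (k + 2), M j := ⟨_, rfl⟩
  have hA1 : 1 ≤ A := hA ▸ le_self_add
  refine (key A (zero_lt_one.trans_le hA1) fun j hj => ?_).trans_lt ENNReal.ofReal_lt_top
  have h1 : M j ≤ A ^ j := ((Finset.single_le_sum (f := M) (fun _ _ => zero_le) hj).trans
    (hA ▸ le_add_self)).trans (le_self_pow₀ hA1 (by have := (Finset.mem_Icc.1 hj).1; omega))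
  exact ⟨fun i hi t ht => ((hM j hj).1 i hi t ht).trans (by exact_mod_cast h1),
    (hM j hj).2.weaken h1⟩

end Pool.Agent.Results.MP_6562b9_an.Main
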